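import Pool.Agent.H81.NCH.Stmts
import Pool.Agent.H81.NCH.Base

/-!
# NCH, module RA1: number of living shifts of a stop gate (MP_f18ce0_lc)
-/

set_option autoImplicit false

namespace Pool.Agent.H81.NCH.RA1

open Pool.Agent.H81.NCH

/-! ### Cells -/

/-- the nodes of the tree -/
def nod (h : ℕ) : Finset (Σ _ : ℕ, ℕ) :=
  (Finset.range (h + 1)).sigma (fun e => Finset.range (2 ^ e))

theorem nod_card (h : ℕ) : (nod h).card ≤ 2 ^ (h + 1) := by
  unfold nod
  rw [Finset.card_sigma]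
  simp only [Finset.card_range]
  induction h with
  | zero => simp
  | succ h ih =>
    rw [Finset.sum_range_succ, pow_succ 2 (h + 1)]
    omega

/-- `t` lies in the wall `w` -/
def Own (h m : ℕ) (w : Bool × (Σ _ : ℕ, ℕ)) (t : ℕ) : Prop :=
  1 ≤ w.2.1 ∧ w.2.1 ≤ h ∧ w.2.2 < 2 ^ w.2.1 ∧ InWall h m w.1 w.2.1 w.2.2 t

theorem exists_own {h m t : ℕ} (hh : 1 ≤ h) (ht : t ≤ dd h m) :
    ∃ w : Bool × (Σ _ : ℕ, ℕ), Own h m w t := by
  obtain ⟨e, i, h1, h2, h3, h4⟩ := exists_wall (m := m) hh ht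
  rcases h4 with h4 | h4
  · refine ⟨(true, ⟨e, i⟩), h1, h2, h3, ?_⟩
    simp only [InWall, if_true]
    exact h4
  · refine ⟨(false, ⟨e, i⟩), h1, h2, h3, ?_⟩
    simp only [InWall, Bool.false_eq_true, if_false]
    exact h4

open Classical in
/-- a wall containing `t` -/
noncomputable def wl (h m t : ℕ) : Bool × (Σ _ : ℕ, ℕ) :=
  if hx : ∃ w, Own h m w t then hx.choose else (true, ⟨0, 0⟩)

theorem wl_spec {h m t : ℕ} (hh : 1 ≤ h) (ht : t ≤ dd h m) : Own h m (wl h m t) t := by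
  have hx := exists_own hh ht
  unfold wl
  rw [dif_pos hx]
  exact hx.choose_spec

open Classical in
/-- the cell of `t` -/
noncomputable def cel (h m : ℕ) (r : ℕ → ℕ → ℕ) (t : ℕ) : (Bool × (Σ _ : ℕ, ℕ)) × Bool :=
  (wl h m t, decide (Post h m r (wl h m t).2.1 (wl h m t).2.2 t))

/-- the cells -/
def cells (h : ℕ) : Finset ((Bool × (Σ _ : ℕ, ℕ)) × Bool) :=
  (Finset.univ ×ˢ nod h) ×ˢ Finset.univ

theorem cells_card (h : ℕ) : (cells h).card ≤ 2 ^ (h + 3) := by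
  unfold cells
  rw [Finset.card_product, Finset.card_product]
  simp only [Finset.card_univ, Fintype.card_bool]
  have h1 := nod_card h
  have h2 : (2 : ℕ) ^ (h + 3) = 2 * 2 ^ (h + 1) * 2 := by
    rw [show h + 3 = (h + 1) + 2 by omega, pow_add]
    ring
  rw [h2]
  gcongr

theorem cel_mem {h m : ℕ} (r : ℕ → ℕ → ℕ) {t : ℕ} (hh : 1 ≤ h) (ht : t ≤ dd h m) :
    cel h m r t ∈ cells h := by
  obtain ⟨h1, h2, h3, h4⟩ := wl_spec hh ht
  unfold cel cells nod
  simp only [Finset.mem_product, Finset.mem_univ, Finset.mem_sigma, Finset.mem_range, true_and,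
    and_true]
  exact ⟨by omega, h3⟩

open Classical in
/-- the slope of a cell -/
noncomputable def csl (h : ℕ) (k : (Bool × (Σ _ : ℕ, ℕ)) × Bool) : ℤ :=
  slp h k.1.1 k.1.2.1 k.1.2.2 (k.2 = true)

theorem csl_cel (h m : ℕ) (r : ℕ → ℕ → ℕ) (t : ℕ) :
    csl h (cel h m r t) =
      slp h (wl h m t).1 (wl h m t).2.1 (wl h m t).2.2
        (Post h m r (wl h m t).2.1 (wl h m t).2.2 t) := by
  unfold csl cel
  congr 1
  simp

open Classical in
/-- change of the level within a cell -/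
theorem lin_cell (hLIN : LINStmt) {h m : ℕ} (r : ℕ → ℕ → ℕ) {u x ρ ρ' t t' : ℕ} (hh : 1 ≤ h)
    (hm : 1 ≤ m) (h1 : RB m (upd r u x ρ)) (h2 : RB m (upd r u x ρ')) (hu : 1 ≤ u) (hu' : u ≤ h)
    (hx : x < 2 ^ u) (ht : t ≤ dd h m) (ht' : t' ≤ dd h m)
    (hc : cel h m (upd r u x ρ) t = cel h m (upd r u x ρ') t') :
    (Post h m (upd r u x ρ) u x t ↔ Post h m (upd r u x ρ') u x t') ∧
    |(NN h : ℤ) * (phi h m (upd r u x ρ') t' - phi h m (upd r u x ρ) t) -
      csl h (cel h m (upd r u x ρ) t) * ((t' : ℤ) - t) +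
      sgn u x * 2 ^ (h + 1) * (NN h : ℤ) * (if Post h m (upd r u x ρ) u x t then 1 else 0) *
        ((ρ' : ℤ) - ρ)| ≤ 4 * (NN h : ℤ) ^ 2 := by
  have hw : wl h m t = wl h m t' := congrArg Prod.fst hc
  have hp : (Post h m (upd r u x ρ) (wl h m t).2.1 (wl h m t).2.2 t ↔
      Post h m (upd r u x ρ') (wl h m t).2.1 (wl h m t).2.2 t') := by
    have h3 := congrArg Prod.snd hc
    unfold cel at h3
    rw [← hw] at h3
    simpa using h3
  obtain ⟨h4, h5, h6, h7⟩ := wl_spec hh ht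
  obtain ⟨_, _, _, h8⟩ := wl_spec hh ht'
  rw [← hw] at h8
  rw [csl_cel]
  exact hLIN h m r u x ρ ρ' (wl h m t).2.1 (wl h m t).2.2 (wl h m t).1 t t' hm h1 h2 h4 h5 h6 hu hu'
    hx h7 h8 hp

/-! ### Different walls -/

theorem ne_wall {h m e i a c : ℕ} (he : e + 10 ≤ h) (hi : i < 2 ^ e) (ha : a ≤ dd h m)
    (hc : c ≤ dd h m) (hb : BigIn h m e i a c) : wl h m a ≠ wl h m c := by
  intro hw
  have hh : 1 ≤ h := by omega
  obtain ⟨h1, h2, h3, h4⟩ := wl_spec hh ha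
  obtain ⟨_, _, _, h5⟩ := wl_spec hh hc
  rw [← hw] at h5
  obtain ⟨x, hx, h6, h7⟩ := hb
  have hxx : 512 * i + x < 2 ^ (e + 9) := by
    rw [pow_add]
    norm_num
    omega
  refine not_core_in_wall (h := h) (m := m) (e := (wl h m a).2.1) (i := (wl h m a).2.2)
    (u := e + 9) (x := 512 * i + x) h1 h2 h3 (by omega) hxx ?_
  unfold InWall at h4 h5
  split_ifs at h4 h5
  · left
    omega
  · right
    omega

theorem BigIn.mono {h m e i a c a' c' : ℕ} (hb : BigIn h m e i a c) (h1 : a' ≤ a) (h2 : c ≤ c') :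
    BigIn h m e i a' c' := by
  obtain ⟨x, hx, h6, h7⟩ := hb
  exact ⟨x, hx, by omega, by omega⟩

theorem csl_ne (hSLD : SLDStmt) {h m : ℕ} (r r' : ℕ → ℕ → ℕ) {a c : ℕ} (hh : 1 ≤ h)
    (ha : a ≤ dd h m) (hc : c ≤ dd h m) (hne : wl h m a ≠ wl h m c) :
    csl h (cel h m r a) ≠ csl h (cel h m r' c) := by
  obtain ⟨h1, h2, h3, _⟩ := wl_spec hh ha
  obtain ⟨h1', h2', h3', _⟩ := wl_spec hh hc
  rw [csl_cel, csl_cel]
  apply hSLD h _ _ _ _ _ _ _ _ h2 h3 h2' h3'
  intro h4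
  apply hne
  simp only [Prod.mk.injEq] at h4
  obtain ⟨h5, h6, h7⟩ := h4
  apply Prod.ext
  · exact h5
  · exact Sigma.ext h6 (heq_of_eq h7)

/-! ### Living cuts -/

theorem lam_bd (h m t : ℕ) : 0 ≤ lam h m t ∧ lam h m t ≤ 1 := by
  classical
  unfold lam
  split_ifs <;> constructor <;> norm_num

theorem two_phi {h m : ℕ} {r : ℕ → ℕ → ℕ} {a c : ℕ}
    (hA : |psi h m r a - psi h m r c| < (KK h : ℤ)) :
    |2 * (phi h m r a - phi h m r c)| ≤ (KK h : ℤ) := by
  have h1 := lam_bd h m a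
  have h2 := lam_bd h m c
  unfold psi at hA
  rw [abs_lt] at hA
  rw [abs_le]
  constructor <;> omega

/-- the bound for the linear forms -/
def KO (h : ℕ) : ℕ := NN h * KK h + 8 * NN h ^ 2

theorem KO_le (h : ℕ) : 2 * KO h + 1 ≤ 2 ^ (2 * h + 12) := by
  unfold KO NN KK
  have h1 : h < 2 ^ h := Nat.lt_two_pow_self
  have h2 : (2 : ℕ) ^ (h + 3) = 8 * 2 ^ h := by
    rw [pow_add]
    ring
  have h3 : (2 : ℕ) ^ (2 * h + 12) = 4096 * (2 ^ h) ^ 2 := by
    rw [pow_add, mul_comm 2 h, pow_mul]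
    ring
  rw [h2, h3]
  set X : ℕ := 2 ^ h
  have h4 : 1 ≤ X := by omega
  have h5 : h + 10 ≤ 11 * X := by omega
  have h6 : 8 * X * (h + 10) ≤ 8 * X * (11 * X) := Nat.mul_le_mul_left _ h5
  have h7 : 1 ≤ X ^ 2 := Nat.one_le_pow _ _ h4
  nlinarith

/-- combination of two cells -/
theorem comb {N K σa σc A A' C C' dt g αa αc dr : ℤ} (hN : 0 ≤ N)
    (h1 : |N * (A' - A) - σa * dt + g * αa * dr| ≤ 4 * N ^ 2)
    (h2 : |N * (C' - C) - σc * dt + g * αc * dr| ≤ 4 * N ^ 2)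
    (h3 : |2 * (A - C)| ≤ K) (h4 : |2 * (A' - C')| ≤ K) :
    |(σa - σc) * dt + -(g * (αa - αc)) * dr| ≤ N * K + 8 * N ^ 2 := by
  have h5 : |N * ((A' - C') - (A - C))| ≤ N * K := by
    rw [abs_mul, abs_of_nonneg hN]
    apply mul_le_mul_of_nonneg_left _ hN
    rw [abs_le] at h3 h4 ⊢
    constructor <;> omega
  rw [abs_le] at h1 h2 h5 ⊢
  constructor <;> nlinarith

end Pool.Agent.H81.NCH.RA1

namespace Pool.Agent.H81.NCH

open RA1

theorem upd_self (r : ℕ → ℕ → ℕ) (u x : ℕ) : upd r u x (r u x) = r := by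
  funext e i
  unfold upd
  split_ifs with h1
  · rw [h1.1, h1.2]
  · rfl

theorem ra1_thm (hLIN : LINStmt) (hSLD : SLDStmt) (hCNT : CNTStmt) : RA1Stmt := by
  classical
  intro h m r k1 k2 e i hm hr he hi
  have hh : 1 ≤ h := by omega
  set S := (Finset.range (dd h m + 1)).filter (fun a => a + k1 + k2 ≤ dd h m ∧
    Alive h m r a (a + k1) (a + k1 + k2) ∧ Stop h m e i a (a + k1) (a + k1 + k2)) with hS
  have hmaps : ∀ a ∈ S, (cel h m r a, cel h m r (a + k1)) ∈ cells h ×ˢ cells h := by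
    intro a ha
    rw [hS, Finset.mem_filter] at ha
    obtain ⟨_, h1, _, _⟩ := ha
    exact Finset.mem_product.2 ⟨cel_mem r hh (by omega), cel_mem r hh (by omega)⟩
  have hfib : ∀ k ∈ cells h ×ˢ cells h,
      (S.filter (fun a => (cel h m r a, cel h m r (a + k1)) = k)).card ≤ 2 ^ (2 * h + 12) := by
    intro k _
    set F := S.filter (fun a => (cel h m r a, cel h m r (a + k1)) = k) with hF
    rcases F.eq_empty_or_nonempty with h0 | ⟨a0, ha0⟩
    · rw [h0]
      simp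
    have hmem : ∀ a ∈ F, a + k1 + k2 ≤ dd h m ∧ Alive h m r a (a + k1) (a + k1 + k2) ∧
        Stop h m e i a (a + k1) (a + k1 + k2) ∧ cel h m r a = k.1 ∧ cel h m r (a + k1) = k.2 := by
      intro a ha
      rw [hF, Finset.mem_filter, hS, Finset.mem_filter] at ha
      obtain ⟨⟨_, h1, h2, h3⟩, h4⟩ := ha
      exact ⟨h1, h2, h3, congrArg Prod.fst h4, congrArg Prod.snd h4⟩
    have hne : csl h k.1 - csl h k.2 ≠ 0 := by
      obtain ⟨h1, _, h3, h4, h5⟩ := hmem a0 ha0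
      have h6 := csl_ne hSLD (m := m) r r (a := a0) (c := a0 + k1) hh (by omega) (by omega)
        (ne_wall he hi (by omega) (by omega) h3.1)
      rw [h4, h5] at h6
      exact sub_ne_zero.2 h6
    have hcard : (F.image (fun a : ℕ => (a : ℤ))).card = F.card :=
      Finset.card_image_of_injective _ Nat.cast_injective
    rw [← hcard]
    refine le_trans (hCNT.1 _ (csl h k.1 - csl h k.2) (KO h) hne ?_) (KO_le h)
    intro y hy z hz
    obtain ⟨a', ha', rfl⟩ := Finset.mem_image.1 hy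
    obtain ⟨a, ha, rfl⟩ := Finset.mem_image.1 hz
    obtain ⟨h1, h2, _, h4, h5⟩ := hmem a ha
    obtain ⟨h1', h2', _, h4', h5'⟩ := hmem a' ha'
    have hupd : upd r 1 0 (r 1 0) = r := upd_self r 1 0
    have hA := (lin_cell hLIN (m := m) r (u := 1) (x := 0) (ρ := r 1 0) (ρ' := r 1 0) (t := a)
      (t' := a') hh hm (by rw [hupd]; exact hr) (by rw [hupd]; exact hr) le_rfl hh (by norm_num)
      (by omega) (by omega) (by rw [hupd, h4, h4'])).2
    have hC := (lin_cell hLIN (m := m) r (u := 1) (x := 0) (ρ := r 1 0) (ρ' := r 1 0) (t := a + k1)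
      (t' := a' + k1) hh hm (by rw [hupd]; exact hr) (by rw [hupd]; exact hr) le_rfl hh
      (by norm_num) (by omega) (by omega) (by rw [hupd, h5, h5'])).2
    rw [hupd, h4] at hA
    rw [hupd, h5] at hC
    have h7 : ((a' + k1 : ℕ) : ℤ) - ((a + k1 : ℕ) : ℤ) = (a' : ℤ) - a := by
      push_cast
      ring
    rw [h7] at hC
    have h8 := comb (by positivity) hA hC (two_phi h2.1) (two_phi h2'.1)
    simp only [sub_self, mul_zero, add_zero] at h8
    unfold KO
    push_cast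
    exact h8
  calc S.card ≤ 2 ^ (2 * h + 12) * (cells h ×ˢ cells h).card :=
        Finset.card_le_mul_card_image_of_maps_to hmaps _ hfib
    _ ≤ 2 ^ (2 * h + 12) * (2 ^ (h + 3) * 2 ^ (h + 3)) := by
        rw [Finset.card_product]
        gcongr
        · exact cells_card h
        · exact cells_card h
    _ = 2 ^ (2 * h + 6) * 2 ^ (2 * h + 12) := by
        rw [← pow_add, ← pow_add, ← pow_add]
        congr 1
        omega

end Pool.Agent.H81.NCH
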