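import Pool.Agent.H81.NCH.Stmts
import Pool.Agent.H81.NCH.Base
import Pool.Agent.H2.NCH.RA1

/-!
# NCH, module RA2: number of living stop gates with a non constant part (MP_f18ce0_lc)
-/

set_option autoImplicit false

namespace Pool.Agent.H81.NCH.RA2

open Pool.Agent.H81.NCH Pool.Agent.H81.NCH.RA1

theorem RB_upd {m : ℕ} {r : ℕ → ℕ → ℕ} (hr : RB m r) (u x : ℕ) {ρ : ℕ} (h1 : 1 ≤ ρ) (h2 : ρ ≤ m) :
    RB m (upd r u x ρ) := by
  intro e i
  unfold upd
  split_ifs
  · exact ⟨h1, h2⟩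
  · exact hr e i

theorem sgn_ne (e i : ℕ) : sgn e i ≠ 0 := by
  unfold sgn
  split_ifs <;> exact pow_ne_zero _ (by norm_num)

open Classical in
/-- the determinant -/
theorem det_ne {g σa σc σb : ℤ} (P Q R : Prop) (hg : g ≠ 0) (h1 : σa ≠ σc) (h2 : σc ≠ σb)
    (h3 : σa ≠ σb) (hn : ¬ ((P ↔ Q) ∧ (Q ↔ R))) :
    (σa - σc) * -(g * ((if Q then 1 else 0) - (if R then 1 else 0))) -
      -(g * ((if P then 1 else 0) - (if Q then 1 else 0))) * (σc - σb) ≠ 0 := by
  have h4 : σa - σc ≠ 0 := sub_ne_zero.2 h1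
  have h5 : σc - σb ≠ 0 := sub_ne_zero.2 h2
  have h6 : σa - σb ≠ 0 := sub_ne_zero.2 h3
  by_cases hP : P <;> by_cases hQ : Q <;> by_cases hR : R <;>
    simp only [hP, hQ, hR, if_true, if_false]
  · exact absurd ⟨⟨fun _ => hQ, fun _ => hP⟩, ⟨fun _ => hR, fun _ => hQ⟩⟩ hn
  · rw [show (σa - σc) * -(g * (1 - 0)) - -(g * (1 - 1)) * (σc - σb) = -((σa - σc) * g) by ring]
    exact neg_ne_zero.2 (mul_ne_zero h4 hg)
  · rw [show (σa - σc) * -(g * (0 - 1)) - -(g * (1 - 0)) * (σc - σb) = (σa - σb) * g by ring]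
    exact mul_ne_zero h6 hg
  · rw [show (σa - σc) * -(g * (0 - 0)) - -(g * (1 - 0)) * (σc - σb) = (σc - σb) * g by ring]
    exact mul_ne_zero h5 hg
  · rw [show (σa - σc) * -(g * (1 - 1)) - -(g * (0 - 1)) * (σc - σb) = -((σc - σb) * g) by ring]
    exact neg_ne_zero.2 (mul_ne_zero h5 hg)
  · rw [show (σa - σc) * -(g * (1 - 0)) - -(g * (0 - 1)) * (σc - σb) = -((σa - σb) * g) by ring]
    exact neg_ne_zero.2 (mul_ne_zero h6 hg)
  · rw [show (σa - σc) * -(g * (0 - 1)) - -(g * (0 - 0)) * (σc - σb) = (σa - σc) * g by ring]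
    exact mul_ne_zero h4 hg
  · exact absurd ⟨⟨fun hp => absurd hp hP, fun hq => absurd hq hQ⟩,
      ⟨fun hq => absurd hq hQ, fun hr => absurd hr hR⟩⟩ hn

end Pool.Agent.H81.NCH.RA2

namespace Pool.Agent.H81.NCH

open RA1 RA2

theorem ra2_thm (hLIN : LINStmt) (hSLD : SLDStmt) (hCNT : CNTStmt) : RA2Stmt := by
  classical
  intro h m r u x k1 k2 e i hm hr he hi hu hu' hx
  have hh : 1 ≤ h := by omega
  set S := (Finset.range (dd h m + 1) ×ˢ Finset.range m).filter (fun p => p.1 + k1 + k2 ≤ dd h m ∧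
    Alive h m (upd r u x (p.2 + 1)) p.1 (p.1 + k1) (p.1 + k1 + k2) ∧
    Stop h m e i p.1 (p.1 + k1) (p.1 + k1 + k2) ∧
    NonConst h m (upd r u x (p.2 + 1)) u x p.1 (p.1 + k1) (p.1 + k1 + k2)) with hS
  let f : ℕ × ℕ → ((Bool × (Σ _ : ℕ, ℕ)) × Bool) × ((Bool × (Σ _ : ℕ, ℕ)) × Bool) ×
      ((Bool × (Σ _ : ℕ, ℕ)) × Bool) := fun p =>
    (cel h m (upd r u x (p.2 + 1)) p.1, cel h m (upd r u x (p.2 + 1)) (p.1 + k1),
      cel h m (upd r u x (p.2 + 1)) (p.1 + k1 + k2))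
  have hmaps : ∀ p ∈ S, f p ∈ cells h ×ˢ (cells h ×ˢ cells h) := by
    intro p hp
    rw [hS, Finset.mem_filter] at hp
    obtain ⟨_, h1, _, _, _⟩ := hp
    exact Finset.mem_product.2 ⟨cel_mem _ hh (by omega), Finset.mem_product.2
      ⟨cel_mem _ hh (by omega), cel_mem _ hh (by omega)⟩⟩
  have hfib : ∀ k ∈ cells h ×ˢ (cells h ×ˢ cells h),
      (S.filter (fun p => f p = k)).card ≤ (2 ^ (2 * h + 12)) ^ 2 := by
    intro k _
    set F := S.filter (fun p => f p = k) with hF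
    rcases F.eq_empty_or_nonempty with h0 | ⟨p0, hp0⟩
    · rw [h0]
      simp
    have hmem : ∀ p ∈ F, p.2 < m ∧ p.1 + k1 + k2 ≤ dd h m ∧
        Alive h m (upd r u x (p.2 + 1)) p.1 (p.1 + k1) (p.1 + k1 + k2) ∧
        Stop h m e i p.1 (p.1 + k1) (p.1 + k1 + k2) ∧
        NonConst h m (upd r u x (p.2 + 1)) u x p.1 (p.1 + k1) (p.1 + k1 + k2) ∧
        cel h m (upd r u x (p.2 + 1)) p.1 = k.1 ∧
        cel h m (upd r u x (p.2 + 1)) (p.1 + k1) = k.2.1 ∧
        cel h m (upd r u x (p.2 + 1)) (p.1 + k1 + k2) = k.2.2 := by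
      intro p hp
      rw [hF, Finset.mem_filter, hS, Finset.mem_filter, Finset.mem_product] at hp
      obtain ⟨⟨⟨_, h0⟩, h1, h2, h3, h4⟩, h5⟩ := hp
      exact ⟨Finset.mem_range.1 h0, h1, h2, h3, h4, congrArg Prod.fst h5,
        congrArg (fun z => z.2.1) h5, congrArg (fun z => z.2.2) h5⟩
    -- the linear forms
    have hlin : ∀ p ∈ F, ∀ q ∈ F, ∀ s : ℕ, ∀ kk : (Bool × (Σ _ : ℕ, ℕ)) × Bool,
        p.1 + s ≤ dd h m → q.1 + s ≤ dd h m →
        cel h m (upd r u x (p.2 + 1)) (p.1 + s) = kk →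
        cel h m (upd r u x (q.2 + 1)) (q.1 + s) = kk →
        (Post h m (upd r u x (p.2 + 1)) u x (p.1 + s) ↔
          Post h m (upd r u x (q.2 + 1)) u x (q.1 + s)) ∧
        |(NN h : ℤ) * (phi h m (upd r u x (q.2 + 1)) (q.1 + s) -
            phi h m (upd r u x (p.2 + 1)) (p.1 + s)) - csl h kk * ((q.1 : ℤ) - p.1) +
          sgn u x * 2 ^ (h + 1) * (NN h : ℤ) *
            (if Post h m (upd r u x (p.2 + 1)) u x (p.1 + s) then 1 else 0) *
            ((q.2 : ℤ) - p.2)| ≤ 4 * (NN h : ℤ) ^ 2 := by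
      intro p hp q hq s kk h1 h2 h3 h4
      obtain ⟨hpm, _⟩ := hmem p hp
      obtain ⟨hqm, _⟩ := hmem q hq
      have h5 := lin_cell hLIN (m := m) r (u := u) (x := x) (ρ := p.2 + 1) (ρ' := q.2 + 1)
        (t := p.1 + s) (t' := q.1 + s) hh hm (RB_upd hr u x (by omega) (by omega))
        (RB_upd hr u x (by omega) (by omega)) hu hu' hx h1 h2 (by rw [h3, h4])
      rw [h3] at h5
      have h6 : ((q.1 + s : ℕ) : ℤ) - ((p.1 + s : ℕ) : ℤ) = (q.1 : ℤ) - p.1 := by
        push_cast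
        ring
      have h7 : ((q.2 + 1 : ℕ) : ℤ) - ((p.2 + 1 : ℕ) : ℤ) = (q.2 : ℤ) - p.2 := by
        push_cast
        ring
      rw [h6, h7] at h5
      exact h5
    obtain ⟨_, hb0, hal0, hst0, hnc0, hc01, hc02, hc03⟩ := hmem p0 hp0
    set PA : Prop := Post h m (upd r u x (p0.2 + 1)) u x p0.1 with hPA
    set PC : Prop := Post h m (upd r u x (p0.2 + 1)) u x (p0.1 + k1) with hPC
    set PB : Prop := Post h m (upd r u x (p0.2 + 1)) u x (p0.1 + k1 + k2) with hPB
    -- the slopes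
    have hw1 : wl h m p0.1 ≠ wl h m (p0.1 + k1) :=
      ne_wall he hi (by omega) (by omega) hst0.1
    have hw2 : wl h m (p0.1 + k1) ≠ wl h m (p0.1 + k1 + k2) :=
      ne_wall he hi (by omega) (by omega) hst0.2
    have hw3 : wl h m p0.1 ≠ wl h m (p0.1 + k1 + k2) :=
      ne_wall he hi (by omega) (by omega) (BigIn.mono hst0.1 le_rfl (by omega))
    have hs1 : csl h k.1 ≠ csl h k.2.1 := by
      have := csl_ne hSLD (upd r u x (p0.2 + 1)) (upd r u x (p0.2 + 1)) hh (by omega) (by omega) hw1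
      rwa [hc01, hc02] at this
    have hs2 : csl h k.2.1 ≠ csl h k.2.2 := by
      have := csl_ne hSLD (upd r u x (p0.2 + 1)) (upd r u x (p0.2 + 1)) hh (by omega) (by omega) hw2
      rwa [hc02, hc03] at this
    have hs3 : csl h k.1 ≠ csl h k.2.2 := by
      have := csl_ne hSLD (upd r u x (p0.2 + 1)) (upd r u x (p0.2 + 1)) hh (by omega) (by omega) hw3
      rwa [hc01, hc03] at this
    have hg : sgn u x * 2 ^ (h + 1) * (NN h : ℤ) ≠ 0 := by
      have h1 := sgn_ne u x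
      have h2 : (NN h : ℤ) ≠ 0 := by
        have := NN_pos h
        positivity
      exact mul_ne_zero (mul_ne_zero h1 (by positivity)) h2
    have hdet := det_ne PA PC PB hg hs1 hs2 hs3 hnc0
    have hcard : (F.image (fun p : ℕ × ℕ => ((p.1 : ℤ), (p.2 : ℤ)))).card = F.card := by
      apply Finset.card_image_of_injective
      intro p q hpq
      simp only [Prod.mk.injEq, Nat.cast_inj] at hpq
      exact Prod.ext hpq.1 hpq.2
    rw [← hcard]
    refine le_trans (hCNT.2 _ _ _ _ _ (KO h) hdet ?_) (Nat.pow_le_pow_left (KO_le h) 2)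
    intro y hy z hz
    obtain ⟨q, hq, rfl⟩ := Finset.mem_image.1 hy
    obtain ⟨p, hp, rfl⟩ := Finset.mem_image.1 hz
    obtain ⟨_, hbp, halp, _, _, hp1, hp2, hp3⟩ := hmem p hp
    obtain ⟨_, hbq, halq, _, _, hq1, hq2, hq3⟩ := hmem q hq
    have hA := (hlin p hp q hq 0 k.1 (by omega) (by omega) (by simpa using hp1)
      (by simpa using hq1)).2
    have hC := (hlin p hp q hq k1 k.2.1 (by omega) (by omega) hp2 hq2).2
    have hB := (hlin p hp q hq (k1 + k2) k.2.2 (by omega) (by omega)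
      (by rw [← add_assoc]; exact hp3) (by rw [← add_assoc]; exact hq3)).2
    have hA0 := (hlin p0 hp0 p hp 0 k.1 (by omega) (by omega) (by simpa using hc01)
      (by simpa using hp1)).1
    have hC0 := (hlin p0 hp0 p hp k1 k.2.1 (by omega) (by omega) hc02 hp2).1
    have hB0 := (hlin p0 hp0 p hp (k1 + k2) k.2.2 (by omega) (by omega)
      (by rw [← add_assoc]; exact hc03) (by rw [← add_assoc]; exact hp3)).1
    simp only [add_zero] at hA hA0
    simp only [← add_assoc] at hB hB0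
    rw [← hPA] at hA0
    rw [← hPC] at hC0
    rw [← hPB] at hB0
    have eA : (if Post h m (upd r u x (p.2 + 1)) u x p.1 then (1 : ℤ) else 0) =
        if PA then 1 else 0 := by
      simp only [← hA0]
    have eC : (if Post h m (upd r u x (p.2 + 1)) u x (p.1 + k1) then (1 : ℤ) else 0) =
        if PC then 1 else 0 := by
      simp only [← hC0]
    have eB : (if Post h m (upd r u x (p.2 + 1)) u x (p.1 + k1 + k2) then (1 : ℤ) else 0) =
        if PB then 1 else 0 := by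
      simp only [← hB0]
    rw [eA] at hA
    rw [eC] at hC
    rw [eB] at hB
    have h8 := comb (by positivity) hA hC (two_phi halp.1) (two_phi halq.1)
    have h9 := comb (by positivity) hC hB (two_phi halp.2) (two_phi halq.2)
    unfold KO
    push_cast
    exact ⟨h8, h9⟩
  calc S.card ≤ (2 ^ (2 * h + 12)) ^ 2 * (cells h ×ˢ (cells h ×ˢ cells h)).card :=
        Finset.card_le_mul_card_image_of_maps_to hmaps _ hfib
    _ ≤ (2 ^ (2 * h + 12)) ^ 2 * (2 ^ (h + 3) * (2 ^ (h + 3) * 2 ^ (h + 3))) := by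
        rw [Finset.card_product, Finset.card_product]
        gcongr
        · exact cells_card h
        · exact cells_card h
        · exact cells_card h
    _ = 2 ^ (3 * h + 9) * (2 ^ (2 * h + 12)) ^ 2 := by
        rw [← pow_mul, ← pow_add, ← pow_add, ← pow_add, ← pow_add]
        congr 1
        omega

end Pool.Agent.H81.NCH
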